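import Pool.Agent.R86.TriSup5

set_option autoImplicit false

/-!
# MP_14d42b_co, Q1 is false for every `t ≥ 3`

`G.copyCount F` is the number of (unlabelled, not necessarily induced) copies of `F` in `G`, that is
the number of subgraphs of `G` isomorphic to `F`. Write `n` for the number of vertices of `G` and
`k` for the number of triangles of `G` divided by `n ^ 2`.

For every `t ≥ 3` there is `δ > 0` such that for all `k₀` and `n₀` some graph `G` with `n ≥ n₀`
vertices and `k ≥ k₀` has fewer than `k ^ t * n ^ (3 - δ)` copies of `K_{3,t}`. As any function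
`ε(n) → 0` is eventually smaller than `δ`, this refutes Q1 for every `t ≥ 3`.

The graphs are tensor powers of the complement (with loops) of the point-line incidence graph of an
affine plane of large prime order, times a triangle to remove the loops.
-/

namespace Pool.Agent.Results.MP_14d42b_co.TensorPowers

theorem result (t : ℕ) (ht : 3 ≤ t) :
    ∃ δ : ℝ, 0 < δ ∧ ∀ (k₀ : ℝ) (n₀ : ℕ),
      ∃ (V : Type) (_ : Fintype V) (G : SimpleGraph V) (k : ℝ),
        n₀ ≤ Fintype.card V ∧ k₀ ≤ k ∧
        (G.copyCount (⊤ : SimpleGraph (Fin 3)) : ℝ) = k * (Fintype.card V : ℝ) ^ 2 ∧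
        (G.copyCount (completeBipartiteGraph (Fin 3) (Fin t)) : ℝ) <
          k ^ t * (Fintype.card V : ℝ) ^ (3 - δ) := by
  obtain ⟨V, hV, R, hR, h1, h2⟩ := Pool.Agent.R86.TriSup.exists_base t ht
  exact Pool.Agent.R86.TriSup.main_of_ratio R hR t h1 h2

end Pool.Agent.Results.MP_14d42b_co.TensorPowers
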